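import Pool.Agent.Helper54.LM.Defs
import Pool.Agent.Helper42.LK.KMT
import Pool.Agent.Helper99.LK.KPOT

/-!
# LMT : master inequality for several points (port of Helper42/LK/KMT.lean)
-/

open Filter Topology NumberField

namespace Pool.Agent.Helper54.LM

open Pool.Agent.Helper42.LS Pool.Agent.Helper42.LK

lemma LMT_cu {F : Type} [Field F] {m : ℕ} {A B : F} {X Y : (Fin m → ℤ) → F}
    (hg : GLat (0 : F) A B X Y) (k : Fin m → ℤ) (hk : k ≠ 0) : cu A B (X k) ≠ 0 := by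
  have h1 : cu A B (X k) = Y k ^ 2 := by
    have := hg.curve k hk
    unfold cu
    linear_combination -this
  rw [h1]
  exact pow_ne_zero _ (hg.yne k hk)

lemma LMT_smul {m : ℕ} (n : ℕ) (hn : 1 ≤ n) (k : Fin m → ℤ) (hk : k ≠ 0) : n • k ≠ 0 := by
  intro h
  apply hk
  funext i
  have h1 := congrFun h i
  simp only [Pi.smul_apply, Pi.zero_apply, nsmul_eq_mul] at h1 ⊢
  rcases mul_eq_zero.1 h1 with h2 | h2
  · have h3 : n = 0 := by exact_mod_cast h2
    omega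
  · exact h2

lemma LMT_pr {m : ℕ} (k : Fin m → ℤ) (c : ℝ) (τ : Fin m → ℝ) :
    pr k (fun i => c * τ i) = c * pr k τ := by
  unfold pr
  rw [Finset.mul_sum]
  exact Finset.sum_congr rfl fun i _ => by ring

/-- transport of the summary to natural number indices -/
lemma LMT_transport {ι : Type} [Nonempty ι] [DecidableEq ι] {C₀ H : ℝ} {m : ℕ}
    {e : (Fin m → ℤ) → ℝ}
    (I J : Finset ι) (w : ι → ℝ) (t : ι → Fin m → ℝ) (N : ι → ℕ) (sub : J ⊆ I)
    (nonneg : ∀ v ∈ I, 0 ≤ w v) (npos : ∀ v ∈ J, 1 ≤ N v)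
    (int : ∀ v ∈ J, ∀ i, ∃ a : ℤ, (N v : ℝ) * t v i = a)
    (nle : ∀ v ∈ J, w v ≠ 0 → N v * Real.log 2 ≤ w v)
    (card : ((I \ J).card : ℝ) ≤ C₀)
    (total : |∑ v ∈ I, w v - H| ≤ C₀)
    (main : ∀ k : Fin m → ℤ, k ≠ 0 → ∑ v ∈ I, w v * B2 (pr k (t v)) - C₀ ≤ 144 * e k) :
    ∃ (V Vf : Finset ℕ) (w : ℕ → ℝ) (t : ℕ → Fin m → ℝ) (N : ℕ → ℕ),
      LSum C₀ H e V Vf w t N := by
  obtain ⟨f, g, hg⟩ := kmt_index I
  have hinj : ∀ T : Finset ι, T ⊆ I → Set.InjOn f (T : Set ι) := by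
    intro T hT a ha b hb hab
    rw [← hg a (hT ha), ← hg b (hT hb), hab]
  have hsum : ∀ T : Finset ι, T ⊆ I → ∀ F : ι → ℝ, ∑ j ∈ T.image f, F (g j) = ∑ i ∈ T, F i := by
    intro T hT F
    rw [Finset.sum_image (hinj T hT)]
    exact Finset.sum_congr rfl fun i hi => by rw [hg i (hT hi)]
  have hmem : ∀ T : Finset ι, T ⊆ I → ∀ j ∈ T.image f, g j ∈ T := by
    intro T hT j hj
    obtain ⟨i, hi, rfl⟩ := Finset.mem_image.1 hj
    rw [hg i (hT hi)]; exact hi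
  refine ⟨I.image f, J.image f, fun j => w (g j), fun j => t (g j), fun j => N (g j), ?_⟩
  refine ⟨Finset.image_subset_image sub, fun j hj => nonneg _ (hmem I subset_rfl j hj),
      fun j hj => npos _ (hmem J sub j hj), fun j hj => int _ (hmem J sub j hj),
      fun j hj => nle _ (hmem J sub j hj), ?_, ?_, ?_⟩
  · refine le_trans ?_ card
    have h1 : (I.image f) \ (J.image f) ⊆ (I \ J).image f := by
      intro j hj
      rw [Finset.mem_sdiff] at hj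
      obtain ⟨i, hi, rfl⟩ := Finset.mem_image.1 hj.1
      refine Finset.mem_image.2 ⟨i, Finset.mem_sdiff.2 ⟨hi, fun h => hj.2 ?_⟩, rfl⟩
      exact Finset.mem_image_of_mem f h
    have h2 := (Finset.card_le_card h1).trans (Finset.card_image_le)
    exact_mod_cast h2
  · rw [hsum I subset_rfl]; exact total
  · intro k hk
    rw [hsum I subset_rfl (fun i => w i * B2 (pr k (t i)))]; exact main k hk

/-- local package at a place of a number field -/
lemma LMT_local (hLB : ST_LLB) (hLS : ST_LLS) (hFP : ST_KFP) (K : Type) [Field K] [NumberField K]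
    (v : FinitePlace K) : ∃ C : ℝ, 0 ≤ C ∧ ∀ A B : K, dsc A B ≠ 0 →
    ∀ (m : ℕ) (X Y : (Fin m → ℤ) → K), GLat (0 : K) A B X Y → ∀ ε : ℝ, ε = (open Classical in
      if v 2 = 1 ∧ v 3 = 1 then 0 else C) →
    ∃ (w : ℝ) (t : Fin m → ℝ) (N : ℕ), 0 ≤ w ∧ |w - dl (fun x : K => v x) A B| ≤ ε ∧ 1 ≤ N ∧
    (∀ i, ∃ a : ℤ, (N : ℝ) * t i = a) ∧ (w ≠ 0 → N * lq v ≤ w) ∧
    ∀ k : Fin m → ℤ, k ≠ 0 → ∃ U : ℕ → ℝ,
    (∀ n : ℕ, 1 ≤ n → 4 * U n - ε ≤ U (2 * n) + Real.log (v (4 * cu A B (X (n • k))))) ∧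
    (∃ C : ℝ, ∀ n : ℕ, 1 ≤ n → U n ≤ Real.log (max (v (X (n • k))) 1) + C) ∧
    (∀ n : ℕ, 1 ≤ n → w * B2 (n * pr k t) + 1 / 6 * Real.log (v (dsc A B)) - ε ≤
      U (12 * n)) := by
  obtain ⟨V, hV, hq⟩ := hFP K v
  have hfun : V.nr = fun x : K => v x := funext hV
  have hlq : lq v = Real.log V.q := by rw [lq, hq]
  obtain ⟨C, hC, hloc⟩ := hLS K V
  refine ⟨C, hC, ?_⟩
  intro A B hD m X Y hg ε hε
  classical
  by_cases h6 : v 2 = 1 ∧ v 3 = 1
  · have hε0 : ε = 0 := by rw [hε, if_pos h6]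
    have h2 : V.ord 2 = 0 := (V.nr_eq_one_iff (by norm_num)).1 (by rw [hV]; exact h6.1)
    have h3 : V.ord 3 = 0 := (V.nr_eq_one_iff (by norm_num)).1 (by rw [hV]; exact h6.2)
    obtain ⟨t, N, h0, hN, hint, hle, hU⟩ := hLB K V h2 h3 A B hD m X Y hg
    rw [hfun] at h0 hle
    subst hε0
    refine ⟨dl (fun x : K => v x) A B, t, N, h0, by simp, hN, hint,
        fun h => by rw [hlq]; exact hle h, ?_⟩
    intro k hk
    obtain ⟨U, hU1, hU2, hU3⟩ := hU k hk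
    rw [hfun] at hU3
    simp only [hV] at hU1 hU2 hU3
    refine ⟨U, ?_, hU2, ?_⟩
    · intro n hn; have := hU1 n hn; linarith
    · intro n hn; have := hU3 n hn; linarith
  · have hε0 : ε = C := by rw [hε, if_neg h6]
    obtain ⟨w, t, N, h0, hw, hN, hint, hle, hU⟩ := hloc A B hD m X Y hg
    rw [hfun] at hw
    rw [hε0]
    refine ⟨w, t, N, h0, hw, hN, hint, fun h => by rw [hlq]; exact hle h, ?_⟩
    intro k hk
    obtain ⟨U, hU1, hU2, hU3⟩ := hU k hk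
    simp only [hV] at hU1 hU2 hU3
    exact ⟨U, hU1, hU2, hU3⟩

/-- archimedean package -/
lemma LMT_arch (hCX : ST_LCX) (hMAP : ST_LMAP) (m : ℕ) : ∃ C₀ : ℝ, 0 ≤ C₀ ∧
    ∀ (K : Type) [Field K] [NumberField K]
    (w : InfinitePlace K) (A B : K), dsc A B ≠ 0 → ∀ X Y : (Fin m → ℤ) → K,
    GLat (0 : K) A B X Y →
    ∃ τ : Fin m → ℝ, ∀ k : Fin m → ℤ, k ≠ 0 → ∃ U : ℕ → ℝ,
    (∀ n : ℕ, 1 ≤ n → 4 * U n - C₀ ≤ U (2 * n) + Real.log (w (4 * cu A B (X (n • k))))) ∧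
    (∃ C : ℝ, ∀ n : ℕ, 1 ≤ n → U n ≤ Real.log (max (w (X (n • k))) 1) + C) ∧
    (∀ n : ℕ, 1 ≤ n → 1 / 6 * Real.log (w (dsc A B))
      + max 0 (Real.log (w (6912 * A ^ 3 / dsc A B))) * B2 (n * pr k τ) - C₀ ≤ U n) := by
  obtain ⟨C₀, hC₀, h⟩ := hCX m
  refine ⟨C₀, hC₀, ?_⟩
  intro K _ _ w A B hD X Y hg
  have hg' := hMAP K ℂ w.embedding m 0 A B X Y hg
  rw [map_zero] at hg'
  have hn : ∀ z : K, ‖w.embedding z‖ = w z := fun z => by
    rw [InfinitePlace.norm_embedding_eq]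
  have hD' : dsc (w.embedding A) (w.embedding B) ≠ 0 := by
    rw [kmt_map_dsc]; exact (map_ne_zero _).2 hD
  obtain ⟨τ, hτ⟩ := h (w.embedding A) (w.embedding B) hD' _ _ hg'
  refine ⟨τ, ?_⟩
  intro k hk
  obtain ⟨U, h1, ⟨C, h2⟩, h3⟩ := hτ k hk
  refine ⟨U, ?_, ⟨C, ?_⟩, ?_⟩
  · intro n hn1
    have := h1 n hn1
    rw [kmt_map_cu, hn] at this
    exact this
  · intro n hn1
    have := h2 n hn1
    rw [hn] at this
    exact this
  · intro n hn1
    have := h3 n hn1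
    have e1 : (6912 * w.embedding A ^ 3 / dsc (w.embedding A) (w.embedding B)) =
        w.embedding (6912 * A ^ 3 / dsc A B) := by
      rw [kmt_map_dsc]; simp [map_ofNat]
    rw [e1, kmt_map_dsc, hn, hn] at this
    exact this

theorem st_LMT (hLB : ST_LLB) (hLS : ST_LLS) (hCX : ST_LCX) (hSQ : ST_LSQ) (hMAP : ST_LMAP)
    (hGO : ST_KGO) (hPOT : ST_KPOT) (hDF : ST_KDF) (hFP : ST_KFP) : ST_LMT := by
  classical
  intro K _ _ m
  obtain ⟨CX, hCX0, hCX⟩ := LMT_arch hCX hMAP m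
  -- the places above 2 and 3
  have h6fin : {v : FinitePlace K | ¬ (v 2 = 1 ∧ v 3 = 1)}.Finite := by
    have h := (hDF K (0 : K) (1 : K) (by unfold dsc; norm_num)).1
    refine h.subset ?_
    intro v hv h'
    exact hv ⟨h'.1, h'.2.1⟩
  obtain ⟨S6, hS6⟩ : ∃ S6 : Finset (FinitePlace K), ∀ v, v ∈ S6 ↔ ¬ (v 2 = 1 ∧ v 3 = 1) :=
    ⟨h6fin.toFinset, fun v => by rw [Set.Finite.mem_toFinset]; rfl⟩
  choose Cv hCv0 hCv using LMT_local hLB hLS hFP K
  obtain ⟨d, hd⟩ : ∃ d : ℝ, d = (Module.finrank ℚ K : ℝ) := ⟨_, rfl⟩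
  have hd0 : 0 ≤ d := by rw [hd]; exact Nat.cast_nonneg _
  obtain ⟨C1, hC1⟩ : ∃ C1 : ℝ, C1 = ∑ v ∈ S6, Cv v := ⟨_, rfl⟩
  have hC10 : 0 ≤ C1 := by rw [hC1]; exact Finset.sum_nonneg fun v _ => hCv0 v
  obtain ⟨C3, hC3⟩ : ∃ C3 : ℝ, C3 = (Fintype.card (InfinitePlace K) : ℝ) := ⟨_, rfl⟩
  have hC30 : 0 ≤ C3 := by rw [hC3]; exact Nat.cast_nonneg _
  obtain ⟨C₀, hC₀⟩ : ∃ C₀ : ℝ, C₀ = 2 * C1 + C3 + 2 * (d * CX) + 1 := ⟨_, rfl⟩
  have hdCX : 0 ≤ d * CX := mul_nonneg hd0 hCX0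
  have hC₀0 : 0 ≤ C₀ := by rw [hC₀]; linarith
  refine ⟨C₀, hC₀0, ?_⟩
  intro A B hD X Y e hg he
  obtain ⟨hfin, hloc, hmulfin, hH1, hH2⟩ := hDF K A B hD
  obtain ⟨S, hS⟩ : ∃ S : Finset (FinitePlace K), ∀ v, v ∈ S ↔
      ¬ (v 2 = 1 ∧ v 3 = 1 ∧ v A ≤ 1 ∧ v B ≤ 1 ∧ v (dsc A B) = 1) :=
    ⟨hfin.toFinset, fun v => by rw [Set.Finite.mem_toFinset]; rfl⟩
  have hSD : ∀ v : FinitePlace K, v ∉ S → v (dsc A B) = 1 := by
    intro v hv
    rw [hS, not_not] at hv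
    exact hv.2.2.2.2
  obtain ⟨δ, hδ⟩ : ∃ δ : FinitePlace K → ℝ, ∀ v, δ v = dl (fun x : K => v x) A B :=
    ⟨fun v => dl (fun x : K => v x) A B, fun _ => rfl⟩
  have hδ0 : ∀ v, 0 ≤ δ v := fun v => by rw [hδ]; exact (hloc v).1
  have hδS : ∀ v : FinitePlace K, v ∉ S → δ v = 0 := by
    intro v hv
    rw [hS, not_not] at hv
    rw [hδ]
    exact (hloc v).2.2.2.2 hv.1 hv.2.1 hv.2.2.1 hv.2.2.2.1 hv.2.2.2.2
  obtain ⟨ε, hε⟩ : ∃ ε : FinitePlace K → ℝ, ∀ v, ε v = if v 2 = 1 ∧ v 3 = 1 then 0 else Cv v :=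
    ⟨fun v => if v 2 = 1 ∧ v 3 = 1 then 0 else Cv v, fun _ => rfl⟩
  have hε0 : ∀ v, 0 ≤ ε v := by
    intro v
    rw [hε]
    split_ifs
    · exact le_rfl
    · exact hCv0 v
  have hεsum : ∀ T : Finset (FinitePlace K), ∑ v ∈ T, ε v ≤ C1 := by
    intro T
    have h1 : ∑ v ∈ T, ε v = ∑ v ∈ T.filter (fun v => v ∈ S6), Cv v := by
      rw [Finset.sum_filter]
      apply Finset.sum_congr rfl
      intro v _
      simp only [hε, hS6]
      split_ifs <;> tauto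
    rw [h1, hC1]
    apply Finset.sum_le_sum_of_subset_of_nonneg
    · intro v hv; exact (Finset.mem_filter.1 hv).2
    · intro v _ _; exact hCv0 v
  choose wf tf nf hw0 hwδ hn1 hint hnle hUf using
    fun v : FinitePlace K => hCv v A B hD m X Y hg (ε v) (by rw [hε])
  choose τ hUi using fun w : InfinitePlace K => hCX K w A B hD X Y hg
  have hLD : LD A B = ∑ v ∈ S, δ v := by
    unfold LD
    have h0 : (fun v : FinitePlace K => dl (fun x : K => v x) A B) = δ := by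
      funext v; rw [hδ]
    rw [h0]
    apply finsum_eq_sum_of_support_subset
    intro v hv
    by_contra h'
    exact hv (hδS v (by simpa using h'))
  have hLD0 : 0 ≤ LD A B := by rw [hLD]; exact Finset.sum_nonneg fun v _ => hδ0 v
  -- arch weights
  obtain ⟨wi, hwi⟩ : ∃ wi : InfinitePlace K → ℝ, ∀ w, wi w =
      (w.mult : ℝ) * max 0 (Real.log (w (6912 * A ^ 3 / dsc A B))) := ⟨_, fun _ => rfl⟩
  have hwi0 : ∀ w, 0 ≤ wi w := fun w => by
    rw [hwi]; exact mul_nonneg (Nat.cast_nonneg _) (le_max_left _ _)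
  obtain ⟨H, hH⟩ : ∃ H : ℝ, H = LD A B + ∑ w : InfinitePlace K, wi w := ⟨_, rfl⟩
  have hHi0 : 0 ≤ ∑ w : InfinitePlace K, wi w := Finset.sum_nonneg fun w _ => hwi0 w
  have hsumwi : ∑ w : InfinitePlace K, (w.mult : ℝ) *
      max 0 (Real.log (w (6912 * A ^ 3 / dsc A B))) = ∑ w : InfinitePlace K, wi w :=
    Finset.sum_congr rfl fun w _ => (hwi w).symm
  rw [hsumwi] at hH1 hH2
  refine ⟨H, by rw [hH]; linarith, by rw [hH]; linarith, by rw [hH]; linarith, ?_⟩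
  -- the summary
  have hne : Nonempty (FinitePlace K ⊕ InfinitePlace K) := by
    obtain ⟨w⟩ : Nonempty (InfinitePlace K) := inferInstance
    exact ⟨Sum.inr w⟩
  have hI : ∀ F : FinitePlace K ⊕ InfinitePlace K → ℝ,
      ∑ i ∈ S.disjSum (Finset.univ : Finset (InfinitePlace K)), F i =
      ∑ v ∈ S, F (Sum.inl v) + ∑ w : InfinitePlace K, F (Sum.inr w) := fun F => by
    rw [Finset.sum_disjSum]
  have hJm : ∀ (Q : FinitePlace K ⊕ InfinitePlace K → Prop),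
      (∀ v ∈ S, Q (Sum.inl v)) → ∀ i ∈ S.disjSum (∅ : Finset (InfinitePlace K)), Q i := by
    intro Q hQ i hi
    rcases Finset.mem_disjSum.1 hi with ⟨v, hv, rfl⟩ | ⟨w, hw, rfl⟩
    · exact hQ v hv
    · simp at hw
  have hTC : |∑ v ∈ S, wf v - LD A B| ≤ C₀ := by
    rw [hLD, ← Finset.sum_sub_distrib]
    refine (Finset.abs_sum_le_sum_abs _ _).trans ?_
    have h1 : ∀ v ∈ S, |wf v - δ v| ≤ ε v := by
      intro v _
      rw [hδ]
      exact hwδ v
    refine (Finset.sum_le_sum h1).trans ?_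
    refine (hεsum S).trans ?_
    rw [hC₀]; linarith
  apply LMT_transport
    (S.disjSum (Finset.univ : Finset (InfinitePlace K)))
    (S.disjSum (∅ : Finset (InfinitePlace K))) (Sum.elim wf wi)
    (Sum.elim tf (fun w i => 12 * τ w i)) (Sum.elim nf (fun _ => 1))
  · exact Finset.disjSum_mono subset_rfl (Finset.empty_subset _)
  · intro i hi
    rcases Finset.mem_disjSum.1 hi with ⟨v, hv, rfl⟩ | ⟨w, hw, rfl⟩
    · exact hw0 v
    · exact hwi0 w
  · exact hJm _ fun v _ => hn1 v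
  · exact hJm _ fun v _ => hint v
  · apply hJm
    intro v _ h
    refine le_trans ?_ (hnle v h)
    exact mul_le_mul_of_nonneg_left (kmt_log_two_le_lq v) (Nat.cast_nonneg _)
  · -- card
    have h1 : S.disjSum (Finset.univ : Finset (InfinitePlace K)) \
        S.disjSum (∅ : Finset (InfinitePlace K)) ⊆
        (Finset.univ : Finset (InfinitePlace K)).map Function.Embedding.inr := by
      intro i hi
      rw [Finset.mem_sdiff] at hi
      rcases Finset.mem_disjSum.1 hi.1 with ⟨v, hv, rfl⟩ | ⟨w, hw, rfl⟩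
      · exact absurd (Finset.mem_disjSum.2 (Or.inl ⟨v, hv, rfl⟩)) hi.2
      · exact Finset.mem_map.2 ⟨w, Finset.mem_univ _, rfl⟩
    have h2 := Finset.card_le_card h1
    rw [Finset.card_map, Finset.card_univ] at h2
    have h3 : ((S.disjSum (Finset.univ : Finset (InfinitePlace K)) \
        S.disjSum (∅ : Finset (InfinitePlace K))).card : ℝ) ≤ C3 := by
      rw [hC3]; exact_mod_cast h2
    rw [hC₀]; linarith
  · -- total
    rw [hI]
    simp only [Sum.elim_inl, Sum.elim_inr]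
    have : ∑ v ∈ S, wf v + ∑ w : InfinitePlace K, wi w - H = ∑ v ∈ S, wf v - LD A B := by
      rw [hH]; ring
    rw [this]; exact hTC
  · -- main inequality
    intro k hk
    choose U hU1 hU2 hU3 using fun v : FinitePlace K => hUf v k hk
    choose Ui hUi1 hUi2 hUi3 using fun w : InfinitePlace K => hUi w k hk
    have hcne : ∀ n : ℕ, 1 ≤ n → 4 * cu A B (X (n • k)) ≠ 0 := fun n hn =>
      mul_ne_zero (by norm_num) (LMT_cu hg _ (LMT_smul n hn k hk))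
    have hsq := hSQ K m 0 A B X Y hg k hk
    have hpot := hPOT K (fun n => X (n • k)) (fun n => 4 * cu A B (X (n • k))) (e k) (he k hk)
      hcne S U ε Ui CX (fun v _ n hn => hU1 v n hn)
      (by
        intro v hv n hn
        have hv' := hv
        rw [hS, not_not] at hv'
        obtain ⟨V, hV, _⟩ := hFP K v
        have := hGO K V (by rw [hV]; exact hv'.1) A B (by rw [hV]; exact hv'.2.2.1)
          (by rw [hV]; exact hv'.2.2.2.1) (by rw [hV]; exact hv'.2.2.2.2) _ _ hsq n hn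
        simpa only [hV] using this)
      (fun w n hn => hUi1 w n hn) (fun v _ => hU2 v) (fun w => hUi2 w)
    have h1 := hpot 12 (by norm_num)
    have h2 : ∑ v ∈ S, (wf v * B2 (pr k (tf v)) + 1 / 6 * Real.log (v (dsc A B)) - ε v) ≤
        ∑ v ∈ S, U v 12 := by
      apply Finset.sum_le_sum
      intro v _
      have := hU3 v 1 le_rfl
      rw [Nat.cast_one, one_mul, mul_one] at this
      exact this
    have h3 : ∑ w : InfinitePlace K, (w.mult : ℝ) * (1 / 6 * Real.log (w (dsc A B)) +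
        max 0 (Real.log (w (6912 * A ^ 3 / dsc A B))) * B2 (((12 : ℕ) : ℝ) * pr k (τ w)) - CX) ≤
        ∑ w : InfinitePlace K, (w.mult : ℝ) * Ui w 12 := by
      apply Finset.sum_le_sum
      intro w _
      exact mul_le_mul_of_nonneg_left (hUi3 w 12 (by norm_num)) (Nat.cast_nonneg _)
    have h4 := kmt_prod hD S hSD
    have h5 : ∑ v ∈ S, (wf v * B2 (pr k (tf v)) + 1 / 6 * Real.log (v (dsc A B)) - ε v) =
        ∑ v ∈ S, wf v * B2 (pr k (tf v)) + 1 / 6 * ∑ v ∈ S, Real.log (v (dsc A B)) -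
        ∑ v ∈ S, ε v := by
      rw [Finset.sum_sub_distrib, Finset.sum_add_distrib, Finset.mul_sum]
    have h6 : ∑ w : InfinitePlace K, (w.mult : ℝ) * (1 / 6 * Real.log (w (dsc A B)) +
        max 0 (Real.log (w (6912 * A ^ 3 / dsc A B))) * B2 (((12 : ℕ) : ℝ) * pr k (τ w)) - CX) =
        1 / 6 * ∑ w : InfinitePlace K, (w.mult : ℝ) * Real.log (w (dsc A B)) +
        ∑ w : InfinitePlace K, wi w * B2 (pr k (fun i => 12 * τ w i)) - d * CX := by
      have e1 : ∀ w : InfinitePlace K, (w.mult : ℝ) * (1 / 6 * Real.log (w (dsc A B)) +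
          max 0 (Real.log (w (6912 * A ^ 3 / dsc A B))) * B2 (((12 : ℕ) : ℝ) * pr k (τ w)) -
            CX) =
          1 / 6 * ((w.mult : ℝ) * Real.log (w (dsc A B))) +
            wi w * B2 (pr k (fun i => 12 * τ w i)) - (w.mult : ℝ) * CX := by
        intro w
        rw [LMT_pr, hwi]; push_cast; ring
      rw [Finset.sum_congr rfl fun w _ => e1 w, Finset.sum_sub_distrib, Finset.sum_add_distrib,
        ← Finset.mul_sum, ← Finset.sum_mul]
      have e2 : ∑ w : InfinitePlace K, (w.mult : ℝ) = d := by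
        rw [hd, ← InfinitePlace.sum_mult_eq]; push_cast; rfl
      rw [e2]
    have h8 := hεsum S
    rw [hI]
    simp only [Sum.elim_inl, Sum.elim_inr]
    have h9 : (((12 : ℕ) : ℝ)) ^ 2 * e k = 144 * e k := by push_cast; ring
    rw [h9, ← hd] at h1
    rw [h5] at h2
    rw [h6] at h3
    have h10 : (0 : ℝ) ≤ ∑ v ∈ S, ε v := Finset.sum_nonneg fun v _ => hε0 v
    rw [hC₀]
    linarith

end Pool.Agent.Helper54.LM
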